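import Mathlib
import Pool.Agent.P.MP_1d6da1_co.Final

namespace Pool.Agent.Results.MP_1d6da1_co.LogSaving

/-- A bipartite graph has parts `P = Fin k` and `Q = Fin l`; `N q` is the neighbourhood of `q`.
If any `d` vertices of `P` have fewer than `t` common neighbours and the VC-dimension is at most
`d`, then the number of edges is `O (n ^ (2 - 1 / d) * (log log n / log n) ^ (1 / (2 d)))`. -/
theorem result (d t : ℕ) (hd : 3 ≤ d) :
    ∃ (C : ℝ) (n₀ : ℕ), ∀ (k l : ℕ) (N : Fin l → Finset (Fin k)),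
      n₀ ≤ k + l →
      (∀ A : Finset (Fin k), A.card = d → (Finset.univ.filter (fun q => A ⊆ N q)).card < t) →
      (Finset.univ.image N).vcDim ≤ d →
      ∑ q, ((N q).card : ℝ) ≤ C * ((k + l : ℕ) : ℝ) ^ (2 - 1 / (d : ℝ))
        * (Real.log (Real.log (k + l : ℕ)) / Real.log (k + l : ℕ)) ^ (1 / (2 * (d : ℝ))) :=
  Pool.Agent.P.MP_1d6da1_co.main d t hd

end Pool.Agent.Results.MP_1d6da1_co.LogSaving
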