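import Mathlib
import Pool.Agent.P.MP_1d6da1_co.Sph.AF10

namespace Pool.Agent.Results.MP_1d6da1_co.PointSphereAll

/-- Points `P` and spheres `Q` (centre `s.1`, squared radius `s.2`) in `F ^ 3`, `F` any field with
`2 ≠ 0`. If the incidence graph is `K_{t,t}`-free and has VC-dimension at most `3`, then it has at
most `C * n ^ (2 - 1 / (3 - ε))` edges, with `ε` absolute and `C` depending only on `t`. -/
theorem result : ∃ ε : ℝ, 0 < ε ∧ ε < 3 ∧ ∀ t : ℕ, ∃ C : ℝ,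
    ∀ (F : Type) [Field F] [DecidableEq F], (2 : F) ≠ 0 →
      ∀ (P : Finset (Fin 3 → F)) (Q : Finset ((Fin 3 → F) × F)),
        (∀ A ⊆ P, ∀ S ⊆ Q, A.card = t → S.card = t →
          ¬ ∀ x ∈ A, ∀ s ∈ S, ∑ i, (x i - s.1 i) ^ 2 = s.2) →
        (Q.image fun s => P.filter fun x => ∑ i, (x i - s.1 i) ^ 2 = s.2).vcDim ≤ 3 →
        ∑ s ∈ Q, ((P.filter fun x => ∑ i, (x i - s.1 i) ^ 2 = s.2).card : ℝ)
          ≤ C * ((P.card + Q.card : ℕ) : ℝ) ^ (2 - 1 / (3 - ε) : ℝ) :=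
  Pool.Agent.P.MP_1d6da1_co.Sph.point_sphere_any

end Pool.Agent.Results.MP_1d6da1_co.PointSphereAll
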