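import Mathlib
import Pool.Agent.P.MP_1d6da1_co.Sph.Thm1

namespace Pool.Agent.Results.MP_1d6da1_co.SphereVC

/-- Points `P` and centres `Q` in `F ^ d`, both of size at least `C * q ^ (d - 1 / 28)`: the
spheres of radius `r` centred in `Q`, cut with `P`, have VC-dimension exactly `d + 1`. -/
theorem result (d : ℕ) (hd : 3 ≤ d) :
    ∃ C : ℝ, ∀ (F : Type) [Field F] [Fintype F] [DecidableEq F], (2 : F) ≠ 0 →
      ∀ r : F, r ≠ 0 → ∀ P Q : Finset (Fin d → F),
        C * (Fintype.card F : ℝ) ^ ((d : ℝ) - 1 / 28) ≤ P.card →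
        C * (Fintype.card F : ℝ) ^ ((d : ℝ) - 1 / 28) ≤ Q.card →
        (Q.image fun y => P.filter fun x => ∑ i, (x i - y i) ^ 2 = r).vcDim = d + 1 :=
  Pool.Agent.P.MP_1d6da1_co.Sph.sphere_vc d hd

end Pool.Agent.Results.MP_1d6da1_co.SphereVC
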